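import Mathlib

/-!
# MP_47cd0b (room C): LEMMA S (helper68), part B

A finite linear space with points `P` and lines `Ls`, incidence `I`. `S` is a set of points off
the line `c y`. If the space is not `c` plus a line, some `z` in `S` has
sum over the lines `g` through `z`, off `c`, of `1 / card (g n S)` at least `1`.
-/

set_option linter.all false

namespace Pool.Agent.Helper89.RC

open Finset
open scoped Classical

variable {V E : Type*}

/-- two points of `P` are on exactly one line of `Ls` -/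
structure LinS (P : Finset V) (Ls : Finset E) (I : V → E → Prop) : Prop where
  ex : ∀ p ∈ P, ∀ q ∈ P, p ≠ q → ∃ g ∈ Ls, I p g ∧ I q g
  uni : ∀ p ∈ P, ∀ q ∈ P, p ≠ q → ∀ g ∈ Ls, ∀ g' ∈ Ls, I p g → I q g → I p g' → I q g' → g = g'

/-- lines through `z`, off `c` -/
noncomputable def pen (Ls : Finset E) (I : V → E → Prop) (c z : V) : Finset E :=
  Ls.filter (fun g => I z g ∧ ¬ I c g)

/-- points of `S` on `g` -/
noncomputable def on (S : Finset V) (I : V → E → Prop) (g : E) : Finset V :=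
  S.filter (fun z => I z g)

theorem mem_pen {Ls : Finset E} {I : V → E → Prop} {c z : V} {g : E} :
    g ∈ pen Ls I c z ↔ g ∈ Ls ∧ I z g ∧ ¬ I c g := by
  simp [pen]

theorem mem_on {S : Finset V} {I : V → E → Prop} {g : E} {z : V} :
    z ∈ on S I g ↔ z ∈ S ∧ I z g := by
  simp [on]

variable {P S : Finset V} {Ls : Finset E} {I : V → E → Prop} {c y : V}

/-- the lines off `c` which meet `S` -/
noncomputable def Lam (S : Finset V) (Ls : Finset E) (I : V → E → Prop) (c : V) : Finset E :=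
  Ls.filter (fun g => ¬ I c g ∧ ∃ z ∈ S, I z g)

/-- the lines off `c` through a point of `S` on `K` -/
noncomputable def GG (S : Finset V) (Ls : Finset E) (I : V → E → Prop) (c : V) (K : E) : Finset E :=
  Ls.filter (fun g => ¬ I c g ∧ ∃ z ∈ S, I z K ∧ I z g)

theorem c_notin (hL : LinS P Ls I) (hc : c ∈ P) (hyP : y ∈ P) (hyc : y ≠ c)
    (hy : ∀ z ∈ S, ∀ g ∈ Ls, I c g → I y g → ¬ I z g) : c ∉ S := by
  intro h
  obtain ⟨g, hg, h1, h2⟩ := hL.ex c hc y hyP (Ne.symm hyc)
  exact hy c h g hg h1 h2 h1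

/-- every line off `c` through a point of `S` on `K` meets `S` on `K'` -/
theorem meets (hL : LinS P Ls I) (hSP : S ⊆ P) (hc : c ∈ P) (hcS : c ∉ S)
    {K K' : E} (hK : K ∈ Ls) (hK' : K' ∈ Ls)
    (hcK : I c K) (hcK' : I c K') (hne : K ≠ K') {mu : ℕ} (hm' : (on S I K').card = mu)
    (hd : ∀ z ∈ S, I z K → (pen Ls I c z).card = mu) {z : V} (hz : z ∈ S) (hzK : I z K)
    {g : E} (hg : g ∈ pen Ls I c z) : ∃ z' ∈ S, I z' K' ∧ I z' g := by
  have hzc : z ≠ c := by
    rintro rfl
    exact hcS hz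
  have hzK' : ¬ I z K' := by
    intro h
    exact hne (hL.uni z (hSP hz) c hc hzc K hK K' hK' hzK hcK h hcK')
  -- the map
  have h1 : ∀ z' ∈ on S I K', ∃ g ∈ pen Ls I c z, I z' g := by
    intro z' hz'
    rw [mem_on] at hz'
    have h2 : z ≠ z' := by
      rintro rfl
      exact hzK' hz'.2
    obtain ⟨g, hg, h3, h4⟩ := hL.ex z (hSP hz) z' (hSP hz'.1) h2
    refine ⟨g, ?_, h4⟩
    rw [mem_pen]
    refine ⟨hg, h3, ?_⟩
    intro h5
    have h6 : z' ≠ c := by
      rintro rfl
      exact hcS hz'.1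
    have h7 := hL.uni z' (hSP hz'.1) c hc h6 g hg K' hK' h4 h5 hz'.2 hcK'
    rw [h7] at h3
    exact hzK' h3
  haveI : Nonempty E := ⟨K⟩
  choose! φ hφ1 hφ2 using h1
  have hinj : Set.InjOn φ (on S I K' : Set V) := by
    intro a ha b hb hab
    have ha' := ha
    have hb' := hb
    simp only [Finset.mem_coe] at ha' hb'
    by_contra hne2
    have ha2 := mem_on.1 ha'
    have hb2 := mem_on.1 hb'
    have h2 := hφ2 a ha'
    have h3 := hφ2 b hb'
    rw [← hab] at h3
    have h4 := (mem_pen.1 (hφ1 a ha'))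
    have h5 := hL.uni a (hSP ha2.1) b (hSP hb2.1) hne2 (φ a) h4.1 K' hK' h2 h3 ha2.2 hb2.2
    rw [h5] at h4
    exact h4.2.2 hcK'
  have h2 : ((on S I K').image φ) = pen Ls I c z := by
    apply Finset.eq_of_subset_of_card_le
    · intro g hg
      rw [mem_image] at hg
      obtain ⟨a, ha, rfl⟩ := hg
      exact hφ1 a ha
    · rw [Finset.card_image_of_injOn hinj, hm', hd z hz hzK]
  rw [← h2, mem_image] at hg
  obtain ⟨z', hz', rfl⟩ := hg
  refine ⟨z', (mem_on.1 hz').1, (mem_on.1 hz').2, hφ2 z' hz'⟩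

/-- through every point off `K` there are exactly `card (S on K)` lines of `GG` -/
theorem deg_off (hL : LinS P Ls I) (hSP : S ⊆ P) (hc : c ∈ P) (hcS : c ∉ S)
    {K : E} (hK : K ∈ Ls) (hcK : I c K) {p : V} (hp : p ∈ P) (hpK : ¬ I p K) :
    ((GG S Ls I c K).filter (fun g => I p g)).card = (on S I K).card := by
  symm
  have h1 : ∀ z ∈ on S I K, ∃ g ∈ (GG S Ls I c K).filter (fun g => I p g), I z g := by
    intro z hz
    rw [mem_on] at hz
    have h2 : p ≠ z := by
      rintro rfl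
      exact hpK hz.2
    obtain ⟨g, hg, h3, h4⟩ := hL.ex p hp z (hSP hz.1) h2
    refine ⟨g, ?_, h4⟩
    rw [mem_filter, GG, mem_filter]
    refine ⟨⟨hg, ?_, z, hz.1, hz.2, h4⟩, h3⟩
    intro h5
    have h6 : z ≠ c := by
      rintro rfl
      exact hcS hz.1
    have h7 := hL.uni z (hSP hz.1) c hc h6 g hg K hK h4 h5 hz.2 hcK
    rw [h7] at h3
    exact hpK h3
  haveI : Nonempty E := ⟨K⟩
  choose! φ hφ1 hφ2 using h1
  apply Finset.card_bij (fun z _ => φ z) (fun z hz => hφ1 z hz)
  · intro a ha b hb hab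
    by_contra hne2
    have h2 := hφ2 a ha
    have h3 := hφ2 b hb
    rw [← hab] at h3
    have h4 := hφ1 a ha
    rw [mem_filter, GG, mem_filter] at h4
    rw [mem_on] at ha hb
    have h5 := hL.uni a (hSP ha.1) b (hSP hb.1) hne2 (φ a) h4.1.1 K hK h2 h3 ha.2 hb.2
    rw [h5] at h4
    exact h4.1.2.1 hcK
  · intro g hg
    have hg' := hg
    rw [mem_filter, GG, mem_filter] at hg
    obtain ⟨⟨hgL, hgc, z, hz, hzK, hzg⟩, hpg⟩ := hg
    have hzon : z ∈ on S I K := mem_on.2 ⟨hz, hzK⟩
    refine ⟨z, hzon, ?_⟩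
    have h2 : p ≠ z := by
      rintro rfl
      exact hpK hzK
    have h4 := hφ1 z hzon
    rw [mem_filter, GG, mem_filter] at h4
    exact hL.uni p hp z (hSP hz) h2 (φ z) h4.1.1 g hgL h4.2 (hφ2 z hzon) hpg hzg

/-- PART B of Lemma S -/
theorem partB (hL : LinS P Ls I) (hSP : S ⊆ P) (hc : c ∈ P) (hyP : y ∈ P) (hyc : y ≠ c)
    (hy : ∀ z ∈ S, ∀ g ∈ Ls, I c g → I y g → ¬ I z g)
    (hnp : ¬ ∃ g ∈ Ls, ¬ I c g ∧ ∀ p ∈ P, p ≠ c → I p g)
    {K K' : E} (hK : K ∈ Ls) (hK' : K' ∈ Ls) (hcK : I c K) (hcK' : I c K') (hne : K ≠ K')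
    {mu : ℕ} (hm : (on S I K).card = mu) (hm' : (on S I K').card = mu) (hmu : 1 ≤ mu)
    (hd : ∀ z ∈ S, (I z K ∨ I z K') → (pen Ls I c z).card = mu)
    (hlt : ∀ z ∈ S, ∑ g ∈ pen Ls I c z, (1 : ℚ) / ((on S I g).card : ℚ) < 1)
    (hlam : (Lam S Ls I c).card < S.card) : False := by
  have hcS : c ∉ S := c_notin hL hc hyP hyc hy
  have hGG : GG S Ls I c K = GG S Ls I c K' := by
    ext g
    simp only [GG, mem_filter]
    constructor
    · rintro ⟨h1, h2, z, hz, h3, h4⟩
      obtain ⟨z', hz', h5, h6⟩ := meets hL hSP hc hcS hK hK' hcK hcK' hne hm'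
        (fun z hz h => hd z hz (Or.inl h)) hz h3 (mem_pen.2 ⟨h1, h4, h2⟩)
      exact ⟨h1, h2, z', hz', h5, h6⟩
    · rintro ⟨h1, h2, z, hz, h3, h4⟩
      obtain ⟨z', hz', h5, h6⟩ := meets hL hSP hc hcS hK' hK hcK' hcK (Ne.symm hne) hm
        (fun z hz h => hd z hz (Or.inr h)) hz h3 (mem_pen.2 ⟨h1, h4, h2⟩)
      exact ⟨h1, h2, z', hz', h5, h6⟩
  set G := GG S Ls I c K with hG
  have hdeg : ∀ p ∈ P, p ≠ c → (G.filter (fun g => I p g)).card = mu := by
    intro p hp hpc
    by_cases h : I p K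
    · have h2 : ¬ I p K' := by
        intro h3
        exact hne (hL.uni p hp c hc hpc K hK K' hK' h hcK h3 hcK')
      rw [hGG, deg_off hL hSP hc hcS hK' hcK' hp h2, hm']
    · rw [hG, deg_off hL hSP hc hcS hK hcK hp h, hm]
  have hGmem : ∀ g ∈ G, g ∈ Ls ∧ ¬ I c g := by
    intro g hg
    rw [hG, GG, mem_filter] at hg
    exact ⟨hg.1, hg.2.1⟩
  have hGcard : G.card = mu * mu := by
    have h1 : ∑ z ∈ on S I K, ((G.filter (fun g => I z g)).card) =
        ∑ g ∈ G, ((on S I K).filter (fun z => I z g)).card :=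
      Finset.sum_card_bipartiteAbove_eq_sum_card_bipartiteBelow (fun z g => I z g)
    have h2 : ∑ z ∈ on S I K, ((G.filter (fun g => I z g)).card) = mu * mu := by
      rw [Finset.sum_congr rfl (fun z hz => ?_), Finset.sum_const, hm, smul_eq_mul]
      rw [mem_on] at hz
      exact hdeg z (hSP hz.1) (by rintro rfl; exact hcS hz.1)
    have h3 : ∑ g ∈ G, ((on S I K).filter (fun z => I z g)).card = G.card := by
      rw [Finset.sum_congr rfl (fun g hg => ?_), Finset.sum_const, smul_eq_mul, mul_one]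
      have hg2 := hg
      rw [hG, GG, mem_filter] at hg2
      obtain ⟨h4, h5, z, hz, h6, h7⟩ := hg2
      rw [Finset.card_eq_one]
      refine ⟨z, ?_⟩
      ext a
      simp only [mem_filter, mem_on, mem_singleton]
      constructor
      · rintro ⟨⟨h8, h9⟩, h10⟩
        by_contra h11
        have h12 := hL.uni a (hSP h8) z (hSP hz) h11 K hK g h4 h9 h6 h10 h7
        rw [h12] at hcK
        exact h5 hcK
      · rintro rfl
        exact ⟨⟨hz, h6⟩, h7⟩
    rw [← h3, ← h1, h2]
  -- two different lines share at most one point, disjoint families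
  have hdisj : ∀ g' ∈ Ls, ¬ I c g' → ∀ T : Finset E, T ⊆ Ls → g' ∉ T →
      ∑ p ∈ on P I g', (T.filter (fun g => I p g)).card ≤ T.card := by
    intro g' hg' hcg' T hT hgT
    have h1 : ∑ p ∈ on P I g', ((T.filter (fun g => I p g)).card) =
        ∑ g ∈ T, ((on P I g').filter (fun p => I p g)).card :=
      Finset.sum_card_bipartiteAbove_eq_sum_card_bipartiteBelow (fun z g => I z g)
    rw [h1]
    have h2 : ∑ g ∈ T, ((on P I g').filter (fun p => I p g)).card ≤ ∑ g ∈ T, 1 := by
      apply Finset.sum_le_sum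
      intro g hg
      rw [Finset.card_le_one]
      intro a ha b hb
      rw [mem_filter, mem_on] at ha hb
      by_contra h3
      have h4 := hL.uni a ha.1.1 b hb.1.1 h3 g' hg' g (hT hg) ha.1.2 hb.1.2 ha.2 hb.2
      rw [h4] at hgT
      exact hgT hg
    simpa using h2
  have hGLs : G ⊆ Ls := fun g hg => (hGmem g hg).1
  have hmu1 : mu ≠ 1 := by
    intro h1
    rw [h1] at hGcard
    rw [mul_one, Finset.card_eq_one] at hGcard
    obtain ⟨g, hg⟩ := hGcard
    have hgG : g ∈ G := by rw [hg]; exact mem_singleton_self g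
    apply hnp
    refine ⟨g, (hGmem g hgG).1, (hGmem g hgG).2, ?_⟩
    intro p hp hpc
    have h2 := hdeg p hp hpc
    rw [h1, Finset.card_eq_one] at h2
    obtain ⟨g1, hg1⟩ := h2
    have h3 : g1 ∈ G.filter (fun g => I p g) := by rw [hg1]; exact mem_singleton_self g1
    rw [mem_filter, hg, mem_singleton] at h3
    rw [← h3.1]
    exact h3.2
  have hmu2 : 2 ≤ mu := by omega
  have hpc : ∀ g' ∈ Ls, ¬ I c g' → ∀ p ∈ on P I g', p ∈ P ∧ p ≠ c := by
    intro g' hg' hcg' p hp
    rw [mem_on] at hp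
    refine ⟨hp.1, ?_⟩
    rintro rfl
    exact hcg' hp.2
  -- lines of G have at most mu + 1 points
  have hGle : ∀ g ∈ G, (on P I g).card ≤ mu + 1 := by
    intro g hg
    have h1 := hdisj g (hGmem g hg).1 (hGmem g hg).2 (G.erase g)
      (fun x hx => hGLs (Finset.mem_of_mem_erase hx)) (Finset.notMem_erase g G)
    have h2 : ∑ p ∈ on P I g, ((G.erase g).filter (fun g => I p g)).card =
        ∑ p ∈ on P I g, (mu - 1) := by
      apply Finset.sum_congr rfl
      intro p hp
      have h3 := hpc g (hGmem g hg).1 (hGmem g hg).2 p hp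
      have h4 : (G.erase g).filter (fun g => I p g) = (G.filter (fun g => I p g)).erase g := by
        ext x
        simp only [mem_filter, mem_erase]
        tauto
      rw [h4, Finset.card_erase_of_mem, hdeg p h3.1 h3.2]
      rw [mem_filter]
      exact ⟨hg, (mem_on.1 hp).2⟩
    rw [h2, Finset.sum_const, smul_eq_mul, Finset.card_erase_of_mem hg, hGcard] at h1
    obtain ⟨m, rfl⟩ : ∃ m, mu = m + 2 := ⟨mu - 2, by omega⟩
    have h5 : (m + 2) * (m + 2) - 1 = (m + 3) * (m + 1) := by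
      have : (m + 2) * (m + 2) = (m + 3) * (m + 1) + 1 := by ring
      omega
    rw [h5] at h1
    have h6 : m + 2 - 1 = m + 1 := by omega
    rw [h6] at h1
    exact Nat.le_of_mul_le_mul_right h1 (by omega)
  -- other lines off c have at most mu points
  have hOle : ∀ g' ∈ Ls, ¬ I c g' → g' ∉ G → (on P I g').card ≤ mu := by
    intro g' hg' hcg' hgG
    have h1 := hdisj g' hg' hcg' G hGLs hgG
    have h2 : ∑ p ∈ on P I g', (G.filter (fun g => I p g)).card = ∑ p ∈ on P I g', mu := by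
      apply Finset.sum_congr rfl
      intro p hp
      have h3 := hpc g' hg' hcg' p hp
      exact hdeg p h3.1 h3.2
    rw [h2, Finset.sum_const, smul_eq_mul, hGcard] at h1
    exact Nat.le_of_mul_le_mul_right h1 (by omega)
  have honle : ∀ g, (on S I g).card ≤ (on P I g).card := by
    intro g
    apply Finset.card_le_card
    intro z hz
    rw [mem_on] at hz ⊢
    exact ⟨hSP hz.1, hz.2⟩
  -- no point of S is on a line off c outside G
  have hall : ∀ z ∈ S, pen Ls I c z ⊆ G := by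
    intro z hz g' hg'
    by_contra hg'G
    have hzc : z ≠ c := by rintro rfl; exact hcS hz
    have h1 := hlt z hz
    have h2 : insert g' (G.filter (fun g => I z g)) ⊆ pen Ls I c z := by
      intro g hg
      rw [mem_insert, mem_filter] at hg
      rcases hg with rfl | hg
      · exact hg'
      · exact mem_pen.2 ⟨(hGmem g hg.1).1, hg.2, (hGmem g hg.1).2⟩
    have h3 : ∑ g ∈ insert g' (G.filter (fun g => I z g)), (1 : ℚ) / ((on S I g).card : ℚ) ≤
        ∑ g ∈ pen Ls I c z, (1 : ℚ) / ((on S I g).card : ℚ) :=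
      Finset.sum_le_sum_of_subset_of_nonneg h2 (fun g _ _ => by positivity)
    rw [Finset.sum_insert (fun h => hg'G (mem_filter.1 h).1)] at h3
    have hpos : ∀ g ∈ pen Ls I c z, (0 : ℚ) < ((on S I g).card : ℚ) := by
      intro g hg
      have : 0 < (on S I g).card := Finset.card_pos.2 ⟨z, mem_on.2 ⟨hz, (mem_pen.1 hg).2.1⟩⟩
      exact_mod_cast this
    have h4 : (1 : ℚ) / (mu : ℚ) ≤ (1 : ℚ) / ((on S I g').card : ℚ) := by
      apply one_div_le_one_div_of_le (hpos g' hg')
      have := (honle g').trans (hOle g' (mem_pen.1 hg').1 (mem_pen.1 hg').2.2 hg'G)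
      exact_mod_cast this
    have h5 : (mu : ℚ) * ((1 : ℚ) / ((mu : ℚ) + 1)) ≤
        ∑ g ∈ G.filter (fun g => I z g), (1 : ℚ) / ((on S I g).card : ℚ) := by
      rw [← hdeg z (hSP hz) hzc]
      rw [← nsmul_eq_mul, ← Finset.sum_const]
      apply Finset.sum_le_sum
      intro g hg
      have h6 : g ∈ pen Ls I c z := h2 (mem_insert_of_mem hg)
      apply one_div_le_one_div_of_le (hpos g h6)
      have := (honle g).trans (hGle g (mem_filter.1 hg).1)
      rw [hdeg z (hSP hz) hzc]
      exact_mod_cast this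
    have h6 : (1 : ℚ) ≤ (1 : ℚ) / (mu : ℚ) + (mu : ℚ) * ((1 : ℚ) / ((mu : ℚ) + 1)) := by
      have h7 : (0 : ℚ) < (mu : ℚ) := by exact_mod_cast hmu
      rw [mul_one_div, div_add_div _ _ (by positivity) (by positivity), le_div_iff₀ (by positivity)]
      nlinarith
    linarith
  -- count S through y
  have hyS : y ∉ S := by
    intro h
    obtain ⟨g, hg, h1, h2⟩ := hL.ex c hc y hyP (Ne.symm hyc)
    exact hy y h g hg h1 h2 h2
  have hScount : S.card ≤ mu * mu := by
    have h1 : S ⊆ (G.filter (fun g => I y g)).biUnion (fun g => on S I g) := by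
      intro z hz
      have h2 : y ≠ z := by rintro rfl; exact hyS hz
      obtain ⟨g, hg, h3, h4⟩ := hL.ex y hyP z (hSP hz) h2
      rw [mem_biUnion]
      refine ⟨g, ?_, mem_on.2 ⟨hz, h4⟩⟩
      rw [mem_filter]
      refine ⟨hall z hz ?_, h3⟩
      rw [mem_pen]
      refine ⟨hg, h4, ?_⟩
      intro h5
      exact hy z hz g hg h5 h3 h4
    refine (Finset.card_le_card h1).trans (Finset.card_biUnion_le.trans ?_)
    have h2 : ∑ g ∈ G.filter (fun g => I y g), (on S I g).card ≤
        ∑ g ∈ G.filter (fun g => I y g), mu := by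
      apply Finset.sum_le_sum
      intro g hg
      rw [mem_filter] at hg
      have h3 : on S I g ⊆ (on P I g).erase y := by
        intro z hz
        rw [mem_on] at hz
        rw [mem_erase, mem_on]
        exact ⟨by rintro rfl; exact hyS hz.1, hSP hz.1, hz.2⟩
      have h4 := Finset.card_le_card h3
      rw [Finset.card_erase_of_mem (mem_on.2 ⟨hyP, hg.2⟩)] at h4
      have h5 := hGle g hg.1
      omega
    rw [Finset.sum_const, smul_eq_mul, hdeg y hyP hyc] at h2
    exact h2
  have hGLam : G ⊆ Lam S Ls I c := by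
    intro g hg
    rw [hG, GG, mem_filter] at hg
    rw [Lam, mem_filter]
    obtain ⟨h1, h2, z, hz, h3, h4⟩ := hg
    exact ⟨h1, h2, z, hz, h4⟩
  have h9 := Finset.card_le_card hGLam
  omega

end Pool.Agent.Helper89.RC
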